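import Pool.Agent.Lib.MP_0e3b4a_gt.Iface

/-! # FLOW: the ordered exponential solves the equation -/

set_option autoImplicit false

namespace Pool.Agent.CutLoci.H16

open MeasureTheory Set Filter Topology

section

variable {r : ℕ} {A : Type} [NormedRing A] [NormedAlgebra ℝ A] [CompleteSpace A]

theorem integrable_R (R : EE r →L[ℝ] A) {u : ℝ → EE r} (hu : IntegrableOn u (Ioc 0 1)) :
    IntegrableOn (fun s => R (u s)) (Ioc 0 1) :=
  R.integrable_comp hu

theorem integrable_mul {f g : ℝ → A} (hf : ContinuousOn f (Icc 0 1))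
    (hg : IntegrableOn g (Ioc 0 1)) : IntegrableOn (fun s => f s * g s) (Ioc 0 1) := by
  rw [← integrableOn_Icc_iff_integrableOn_Ioc] at hg ⊢
  exact hg.continuousOn_mul hf isCompact_Icc

theorem interval_of_Ioc {f : ℝ → A} (hf : IntegrableOn f (Ioc 0 1)) {t : ℝ}
    (ht : t ∈ Icc (0 : ℝ) 1) : IntervalIntegrable f volume 0 t := by
  rw [intervalIntegrable_iff_integrableOn_Ioc_of_le ht.1]
  exact hf.mono_set (Ioc_subset_Ioc_right ht.2)

theorem continuousOn_prim {f : ℝ → A} (hf : IntegrableOn f (Ioc 0 1)) :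
    ContinuousOn (fun t => ∫ s in (0 : ℝ)..t, f s) (Icc 0 1) := by
  have h := intervalIntegral.continuousOn_primitive_interval (μ := volume) (f := f) (a := (0 : ℝ))
    (b := 1) (by
      rw [uIcc_of_le zero_le_one, integrableOn_Icc_iff_integrableOn_Ioc]
      exact hf)
  rwa [uIcc_of_le zero_le_one] at h

theorem iter_cont (R : EE r →L[ℝ] A) {u : ℝ → EE r} (hu : IntegrableOn u (Ioc 0 1)) (k : ℕ) :
    ContinuousOn (iter R u k) (Icc 0 1) := by
  induction k with
  | zero => exact continuousOn_const
  | succ k ih => exact continuousOn_prim (integrable_mul ih (integrable_R R hu))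

theorem iter_integrable (R : EE r →L[ℝ] A) {u : ℝ → EE r} (hu : IntegrableOn u (Ioc 0 1))
    (k : ℕ) : IntegrableOn (fun s => iter R u k s * R (u s)) (Ioc 0 1) :=
  integrable_mul (iter_cont R hu k) (integrable_R R hu)

theorem iter_mul_prod {R : EE r →L[ℝ] A} {N : ℕ} (hN : Nil R N) {u : ℝ → EE r}
    (hu : IntegrableOn u (Ioc 0 1)) (k : ℕ) : ∀ l : List (EE r), l.length + k = N →
      ∀ t ∈ Icc (0 : ℝ) 1, iter R u k t * (l.map R).prod = 0 := by
  induction k with
  | zero =>
    intro l hl t _
    have hl' : l.length = N := by simpa using hl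
    subst hl'
    have h := hN (fun i => l.get i)
    rw [show (fun i => R (l.get i)) = R ∘ l.get from rfl, ← List.map_ofFn, List.ofFn_get] at h
    rw [h, mul_zero]
  | succ k ih =>
    intro l hl t ht
    have hint := interval_of_Ioc (iter_integrable R hu k) ht
    have h := ((ContinuousLinearMap.mul ℝ A).flip (l.map R).prod).intervalIntegral_comp_comm hint
    have h2 : iter R u (k + 1) t * (l.map R).prod =
        ((ContinuousLinearMap.mul ℝ A).flip (l.map R).prod) (∫ s in (0 : ℝ)..t,
          iter R u k s * R (u s)) := rfl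
    rw [h2, ← h]
    have h3 : ∀ s ∈ uIcc 0 t, ((ContinuousLinearMap.mul ℝ A).flip (l.map R).prod)
        (iter R u k s * R (u s)) = 0 := by
      intro s hs
      rw [uIcc_of_le ht.1] at hs
      change iter R u k s * R (u s) * (l.map R).prod = 0
      have h4 := ih (u s :: l) (by simp only [List.length_cons]; omega) s
        ⟨hs.1, hs.2.trans ht.2⟩
      rw [List.map_cons, List.prod_cons, ← mul_assoc] at h4
      exact h4
    rw [intervalIntegral.integral_congr h3, intervalIntegral.integral_zero]

theorem iter_eq_zero {R : EE r →L[ℝ] A} {N : ℕ} (hN : Nil R N) {u : ℝ → EE r}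
    (hu : IntegrableOn u (Ioc 0 1)) {t : ℝ} (ht : t ∈ Icc (0 : ℝ) 1) : iter R u N t = 0 := by
  have h := iter_mul_prod hN hu N [] (by simp) t ht
  simpa using h

theorem flow_cont (R : EE r →L[ℝ] A) (N : ℕ) {u : ℝ → EE r} (hu : IntegrableOn u (Ioc 0 1)) :
    ContinuousOn (flow R N u) (Icc 0 1) := by
  have h : flow R N u = fun t => ∑ k ∈ Finset.range N, iter R u k t := rfl
  rw [h]
  exact continuousOn_finsetSum _ fun k _ => iter_cont R hu k

theorem sol_flow {R : EE r →L[ℝ] A} {N : ℕ} (hN : Nil R N) {u : ℝ → EE r}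
    (hu : IntegrableOn u (Ioc 0 1)) : Sol R u (flow R N u) := by
  refine ⟨flow_cont R N hu, ?_⟩
  intro t ht
  have h1 : ∀ s, flow R N u s * R (u s) =
      ∑ k ∈ Finset.range N, iter R u k s * R (u s) := by
    intro s
    rw [flow, Finset.sum_mul]
  have h2 : ∫ s in (0 : ℝ)..t, flow R N u s * R (u s) =
      ∑ k ∈ Finset.range N, iter R u (k + 1) t := by
    simp only [h1]
    rw [intervalIntegral.integral_finset_sum]
    · rfl
    · intro k _
      exact interval_of_Ioc (iter_integrable R hu k) ht
  have h3 := Finset.sum_range_succ' (fun k => iter R u k t) N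
  have h4 := Finset.sum_range_succ (fun k => iter R u k t) N
  rw [h2, flow, add_comm, ← sub_eq_zero]
  have h5 : iter R u 0 t = 1 := rfl
  rw [h4, iter_eq_zero hN hu ht, add_zero, h5] at h3
  rw [h3, sub_self]

end

theorem flow_thm : FlowStatement :=
  fun _ _ _ _ _ _ _ hN _ hu => sol_flow hN hu

end Pool.Agent.CutLoci.H16
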