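import Pool.Agent.Lib.MP_0e3b4a_gt.Iface2
import Pool.Agent.Lib.MP_0e3b4a_gt.H16.Flow

/-! # REPA: reparametrisation by arc length -/

set_option autoImplicit false

namespace Pool.Agent.CutLoci.H16

open MeasureTheory Set Filter Topology
open scoped NNReal

/-- The arc length parameter. -/
theorem exists_sigma {r : ℕ} {u : ℝ → EE r} (hu : IntegrableOn u (Ioc 0 1)) :
    ∃ σ : ℝ → ℝ, ContinuousOn σ (Icc 0 1) ∧ σ 0 = 0 ∧ σ 1 = 1 ∧
      ∀ t ∈ Icc (0 : ℝ) 1, ∀ t' ∈ Icc (0 : ℝ) 1, t ≤ t' → σ t ≤ σ t' ∧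
        ∫ s in t..t', ‖u s‖ = (∫ s in (0 : ℝ)..1, ‖u s‖) * (σ t' - σ t) := by
  have hn : IntegrableOn (fun s => ‖u s‖) (Ioc 0 1) := hu.norm
  have hint : ∀ t ∈ Icc (0 : ℝ) 1, ∀ t' ∈ Icc (0 : ℝ) 1,
      IntervalIntegrable (fun s => ‖u s‖) volume t t' := by
    intro t ht t' ht'
    have h1 : IntervalIntegrable (fun s => ‖u s‖) volume 0 t := by
      rw [intervalIntegrable_iff_integrableOn_Ioc_of_le ht.1]
      exact hn.mono_set (Ioc_subset_Ioc_right ht.2)
    have h2 : IntervalIntegrable (fun s => ‖u s‖) volume 0 t' := by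
      rw [intervalIntegrable_iff_integrableOn_Ioc_of_le ht'.1]
      exact hn.mono_set (Ioc_subset_Ioc_right ht'.2)
    exact h1.symm.trans h2
  have h00 : (0 : ℝ) ∈ Icc (0 : ℝ) 1 := ⟨le_refl _, zero_le_one⟩
  have h11 : (1 : ℝ) ∈ Icc (0 : ℝ) 1 := ⟨zero_le_one, le_refl _⟩
  have hnn : ∀ t t', t ≤ t' → 0 ≤ ∫ s in t..t', ‖u s‖ := fun t t' h =>
    intervalIntegral.integral_nonneg h fun _ _ => norm_nonneg _
  rcases eq_or_ne (∫ s in (0 : ℝ)..1, ‖u s‖) 0 with hL | hL
  · refine ⟨id, continuousOn_id, rfl, rfl, ?_⟩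
    intro t ht t' ht' htt
    refine ⟨htt, ?_⟩
    rw [hL, zero_mul]
    have e1 := intervalIntegral.integral_add_adjacent_intervals (hint 0 h00 t ht)
      (hint t ht t' ht')
    have e2 := intervalIntegral.integral_add_adjacent_intervals (hint 0 h00 t' ht')
      (hint t' ht' 1 h11)
    have p1 := hnn 0 t ht.1
    have p2 := hnn t t' htt
    have p3 := hnn t' 1 ht'.2
    linarith
  · have hLpos : 0 < ∫ s in (0 : ℝ)..1, ‖u s‖ := lt_of_le_of_ne (hnn 0 1 zero_le_one) hL.symm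
    refine ⟨fun t => (∫ s in (0 : ℝ)..t, ‖u s‖) / ∫ s in (0 : ℝ)..1, ‖u s‖, ?_, ?_, ?_, ?_⟩
    · apply ContinuousOn.div_const
      have h := intervalIntegral.continuousOn_primitive_interval (μ := volume)
        (f := fun s => ‖u s‖) (a := (0 : ℝ)) (b := 1) (by
          rw [uIcc_of_le zero_le_one, integrableOn_Icc_iff_integrableOn_Ioc]
          exact hn)
      rwa [uIcc_of_le zero_le_one] at h
    · simp
    · exact div_self hL
    · intro t ht t' ht' htt
      have e1 := intervalIntegral.integral_add_adjacent_intervals (hint 0 h00 t ht)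
        (hint t ht t' ht')
      have p2 := hnn t t' htt
      constructor
      · apply div_le_div_of_nonneg_right _ hLpos.le
        linarith
      · rw [← sub_div, mul_div_cancel₀ _ hL]
        linarith

/-- A function with quadratic increments is constant. -/
theorem const_of_sq {A : Type} [NormedAddCommGroup A] [NormedSpace ℝ A] {f : ℝ → A} {C : ℝ}
    (h : ∀ s s', ‖f s' - f s‖ ≤ C * (s' - s) ^ 2) (s s' : ℝ) : f s = f s' := by
  have hd : ∀ x, HasDerivAt f 0 x := by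
    intro x
    rw [hasDerivAt_iff_isLittleO]
    have h1 : (fun x' => f x' - f x - (x' - x) • (0 : A)) =O[𝓝 x] fun x' => (x' - x) ^ 2 := by
      apply Asymptotics.IsBigO.of_bound C
      filter_upwards with x'
      rw [smul_zero, sub_zero, Real.norm_of_nonneg (sq_nonneg _)]
      exact h x x'
    apply h1.trans_isLittleO
    have h2 : (fun x' : ℝ => (x' - x) ^ 2) = fun x' => (x' - x) * (x' - x) := by
      ext x'
      ring
    rw [h2]
    have h3 : (fun x' : ℝ => (x' - x)) =o[𝓝 x] fun _ => (1 : ℝ) := by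
      rw [Asymptotics.isLittleO_one_iff]
      have : Tendsto (fun x' : ℝ => x' - x) (𝓝 x) (𝓝 (x - x)) :=
        (continuous_id.sub continuous_const).tendsto x
      rwa [sub_self] at this
    have h4 := h3.mul_isBigO (Asymptotics.isBigO_refl (fun x' : ℝ => x' - x) (𝓝 x))
    simpa using h4
  exact is_const_of_deriv_eq_zero (fun x => (hd x).differentiableAt) (fun x => (hd x).deriv) s s'

/-- Truncation to `[0, 1]`. -/
noncomputable def clp (s : ℝ) : ℝ := max 0 (min s 1)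

theorem clp_mem (s : ℝ) : clp s ∈ Icc (0 : ℝ) 1 :=
  ⟨le_max_left _ _, max_le zero_le_one (min_le_right _ _)⟩

theorem clp_of_mem {s : ℝ} (hs : s ∈ Icc (0 : ℝ) 1) : clp s = s := by
  rw [clp, min_eq_left hs.2, max_eq_right hs.1]

theorem clp_lip (s s' : ℝ) : |clp s' - clp s| ≤ |s' - s| := by
  have h1 : |max 0 (min s' 1) - max 0 (min s 1)| ≤ |min s' 1 - min s 1| := by
    have := abs_max_sub_max_le_abs (min s' 1) (min s 1) 0
    rwa [max_comm _ (0 : ℝ), max_comm _ (0 : ℝ)] at this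
  refine h1.trans ?_
  have h2 := abs_min_sub_min_le_max s' 1 s 1
  rwa [sub_self, abs_zero, max_eq_left (abs_nonneg _)] at h2

section

variable {r : ℕ}

/-- The reparametrised control. -/
theorem exists_control {u : ℝ → EE r} (hu : IntegrableOn u (Ioc 0 1)) {σ : ℝ → ℝ} {L : ℝ}
    (hL : 0 ≤ L) (hc : ContinuousOn σ (Icc 0 1)) (h0 : σ 0 = 0) (h1 : σ 1 = 1)
    (hσ : ∀ t ∈ Icc (0 : ℝ) 1, ∀ t' ∈ Icc (0 : ℝ) 1, t ≤ t' → σ t ≤ σ t' ∧
        ∫ s in t..t', ‖u s‖ = L * (σ t' - σ t)) :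
    ∃ w : ℝ → EE r, Measurable w ∧ (∀ s, ‖w s‖ ≤ L) ∧
      ∀ t ∈ Icc (0 : ℝ) 1, ∀ t' ∈ Icc (0 : ℝ) 1,
        ∫ s in σ t..σ t', w s = ∫ s in t..t', u s := by
  have h00 : (0 : ℝ) ∈ Icc (0 : ℝ) 1 := ⟨le_refl _, zero_le_one⟩
  have hint : ∀ t ∈ Icc (0 : ℝ) 1, ∀ t' ∈ Icc (0 : ℝ) 1, IntervalIntegrable u volume t t' := by
    intro t ht t' ht'
    have h1 : IntervalIntegrable u volume 0 t := by
      rw [intervalIntegrable_iff_integrableOn_Ioc_of_le ht.1]
      exact hu.mono_set (Ioc_subset_Ioc_right ht.2)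
    have h2 : IntervalIntegrable u volume 0 t' := by
      rw [intervalIntegrable_iff_integrableOn_Ioc_of_le ht'.1]
      exact hu.mono_set (Ioc_subset_Ioc_right ht'.2)
    exact h1.symm.trans h2
  -- the right inverse
  have hsurj : ∀ s : ℝ, ∃ t ∈ Icc (0 : ℝ) 1, σ t = clp s := by
    intro s
    have := intermediate_value_Icc zero_le_one hc
    rw [h0, h1] at this
    exact this (clp_mem s)
  choose τ hτ hστ using hsurj
  -- the key inequality
  have key : ∀ t ∈ Icc (0 : ℝ) 1, ∀ t' ∈ Icc (0 : ℝ) 1,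
      ‖(∫ s in (0 : ℝ)..t', u s) - ∫ s in (0 : ℝ)..t, u s‖ ≤ L * |σ t' - σ t| := by
    intro t ht t' ht'
    have h3 : (∫ s in (0 : ℝ)..t', u s) - ∫ s in (0 : ℝ)..t, u s = ∫ s in t..t', u s :=
      intervalIntegral.integral_interval_sub_left (hint 0 h00 t' ht') (hint 0 h00 t ht)
    rw [h3]
    rcases le_total t t' with h | h
    · have h4 := hσ t ht t' ht' h
      rw [abs_of_nonneg (sub_nonneg.2 h4.1), ← h4.2]
      exact intervalIntegral.norm_integral_le_integral_norm h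
    · have h4 := hσ t' ht' t ht h
      rw [intervalIntegral.integral_symm, norm_neg, abs_sub_comm,
        abs_of_nonneg (sub_nonneg.2 h4.1), ← h4.2]
      exact intervalIntegral.norm_integral_le_integral_norm h
  set V : ℝ → EE r := fun s => ∫ p in (0 : ℝ)..τ s, u p with hV
  have hVσ : ∀ t ∈ Icc (0 : ℝ) 1, V (σ t) = ∫ p in (0 : ℝ)..t, u p := by
    intro t ht
    have hst : σ t ∈ Icc (0 : ℝ) 1 := by
      have a1 := (hσ 0 h00 t ht ht.1).1
      have a2 := (hσ t ht 1 ⟨zero_le_one, le_refl _⟩ ht.2).1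
      rw [h0] at a1
      rw [h1] at a2
      exact ⟨a1, a2⟩
    have h5 := key t ht (τ (σ t)) (hτ _)
    rw [hστ, clp_of_mem hst, sub_self, abs_zero, mul_zero] at h5
    exact sub_eq_zero.1 (norm_le_zero_iff.1 h5)
  have hlip : LipschitzWith (Real.toNNReal L) V := by
    apply LipschitzWith.of_dist_le_mul
    intro s s'
    rw [dist_eq_norm, Real.coe_toNNReal L hL, Real.dist_eq]
    refine (key (τ s') (hτ s') (τ s) (hτ s)).trans ?_
    rw [hστ, hστ]
    exact mul_le_mul_of_nonneg_left (clp_lip _ _) hL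
  refine ⟨deriv V, measurable_deriv V, ?_, ?_⟩
  · intro s
    have := norm_deriv_le_of_lipschitz (x₀ := s) hlip
    rwa [Real.coe_toNNReal L hL] at this
  · intro t ht t' ht'
    have hw : IntervalIntegrable (deriv V) volume (σ t) (σ t') := by
      apply (intervalIntegrable_const (c := L)).mono_fun
        (measurable_deriv V).aestronglyMeasurable
      filter_upwards with s
      have := norm_deriv_le_of_lipschitz (x₀ := s) hlip
      rw [Real.coe_toNNReal L hL] at this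
      rwa [Real.norm_of_nonneg hL]
    have hcoord : ∀ i : Fin r, (∫ s in σ t..σ t', deriv V s) i = V (σ t') i - V (σ t) i := by
      intro i
      have e1 := (EuclideanSpace.proj (𝕜 := ℝ) i : EE r →L[ℝ] ℝ).intervalIntegral_comp_comm hw
      have hlipi : LipschitzWith (Real.toNNReal L) (fun s => V s i) := by
        apply LipschitzWith.of_dist_le_mul
        intro s s'
        refine le_trans ?_ (hlip.dist_le_mul s s')
        rw [dist_eq_norm, dist_eq_norm]
        exact PiLp.norm_apply_le (V s - V s') i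
      have e2 := (hlipi.lipschitzOnWith (s := uIcc (σ t) (σ t'))
        ).absolutelyContinuousOnInterval.integral_deriv_eq_sub
      rw [← e2]
      have e3 : (∫ s in σ t..σ t', deriv V s) i =
          (EuclideanSpace.proj (𝕜 := ℝ) i : EE r →L[ℝ] ℝ) (∫ s in σ t..σ t', deriv V s) := rfl
      rw [e3, ← e1]
      apply intervalIntegral.integral_congr_ae
      filter_upwards [hlip.ae_differentiableAt (μ := volume)] with s hs _
      have e4 := ((EuclideanSpace.proj (𝕜 := ℝ) i : EE r →L[ℝ] ℝ).hasFDerivAt.comp_hasDerivAt s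
        hs.hasDerivAt).deriv
      exact e4.symm
    have e5 : ∫ s in σ t..σ t', deriv V s = V (σ t') - V (σ t) := by
      ext i
      rw [hcoord i]
      rfl
    rw [e5, hVσ t ht, hVσ t' ht']
    exact intervalIntegral.integral_interval_sub_left (hint 0 h00 t' ht') (hint 0 h00 t ht)

variable {A : Type} [NormedRing A] [NormedAlgebra ℝ A] [CompleteSpace A]

/-- Change of variables. -/
theorem change_var (R : EE r →L[ℝ] A) {u w : ℝ → EE r} (hu : IntegrableOn u (Ioc 0 1))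
    (hw : IntegrableOn w (Ioc 0 1)) {σ : ℝ → ℝ} {L M : ℝ}
    (hL : 0 ≤ L) (hM : 0 ≤ M) (hc : ContinuousOn σ (Icc 0 1)) (h0 : σ 0 = 0) (h1 : σ 1 = 1)
    (hσ : ∀ t ∈ Icc (0 : ℝ) 1, ∀ t' ∈ Icc (0 : ℝ) 1, t ≤ t' → σ t ≤ σ t' ∧
        ∫ s in t..t', ‖u s‖ = L * (σ t' - σ t))
    (hwL : ∀ᵐ s ∂volume, s ∈ Ioc (0 : ℝ) 1 → ‖w s‖ ≤ L)
    (huw : ∀ t ∈ Icc (0 : ℝ) 1, ∀ t' ∈ Icc (0 : ℝ) 1,
        ∫ s in σ t..σ t', w s = ∫ s in t..t', u s) (P : ℝ → A)
    (hPc : ContinuousOn P (Icc 0 1))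
    (hP : ∀ s ∈ Icc (0 : ℝ) 1, ∀ s' ∈ Icc (0 : ℝ) 1, s ≤ s' → ‖P s' - P s‖ ≤ M * (s' - s))
    {t : ℝ} (ht : t ∈ Icc (0 : ℝ) 1) :
    ∫ s in (0 : ℝ)..σ t, P s * R (w s) = ∫ s in (0 : ℝ)..t, P (σ s) * R (u s) := by
  have h00 : (0 : ℝ) ∈ Icc (0 : ℝ) 1 := ⟨le_refl _, zero_le_one⟩
  have h11 : (1 : ℝ) ∈ Icc (0 : ℝ) 1 := ⟨zero_le_one, le_refl _⟩
  have hσm : ∀ t ∈ Icc (0 : ℝ) 1, σ t ∈ Icc (0 : ℝ) 1 := by
    intro t ht
    have a1 := (hσ 0 h00 t ht ht.1).1
    have a2 := (hσ t ht 1 h11 ht.2).1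
    rw [h0] at a1
    rw [h1] at a2
    exact ⟨a1, a2⟩
  have hsub : ∀ {f : ℝ → A}, IntegrableOn f (Ioc 0 1) → ∀ t ∈ Icc (0 : ℝ) 1,
      ∀ t' ∈ Icc (0 : ℝ) 1, IntervalIntegrable f volume t t' := by
    intro f hf t ht t' ht'
    exact (interval_of_Ioc hf ht).symm.trans (interval_of_Ioc hf ht')
  have hPσ : ContinuousOn (fun s => P (σ s)) (Icc 0 1) := hPc.comp hc hσm
  have hRu := integrable_R R hu
  have hRw := integrable_R R hw
  have i1 := integrable_mul hPc hRw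
  have i2 := integrable_mul hPσ hRu
  set E : ℝ → A := fun t => (∫ s in (0 : ℝ)..σ t, P s * R (w s)) -
    ∫ s in (0 : ℝ)..t, P (σ s) * R (u s) with hE
  have hsurj : ∀ s : ℝ, ∃ t ∈ Icc (0 : ℝ) 1, σ t = clp s := by
    intro s
    have := intermediate_value_Icc zero_le_one hc
    rw [h0, h1] at this
    exact this (clp_mem s)
  choose τ hτ hστ using hsurj
  -- quadratic increments
  have hquad : ∀ t ∈ Icc (0 : ℝ) 1, ∀ t' ∈ Icc (0 : ℝ) 1, t ≤ t' →
      ‖E t' - E t‖ ≤ 2 * M * ‖R‖ * L * (σ t' - σ t) ^ 2 := by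
    intro t ht t' ht' htt
    have hs1 := hσm t ht
    have hs2 := hσm t' ht'
    have hd := hσ t ht t' ht' htt
    have e1 : (∫ s in (0 : ℝ)..σ t', P s * R (w s)) - ∫ s in (0 : ℝ)..σ t, P s * R (w s) =
        ∫ s in σ t..σ t', P s * R (w s) :=
      intervalIntegral.integral_interval_sub_left (hsub i1 0 h00 _ hs2) (hsub i1 0 h00 _ hs1)
    have e2 : (∫ s in (0 : ℝ)..t', P (σ s) * R (u s)) - ∫ s in (0 : ℝ)..t, P (σ s) * R (u s) =
        ∫ s in t..t', P (σ s) * R (u s) :=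
      intervalIntegral.integral_interval_sub_left (hsub i2 0 h00 _ ht') (hsub i2 0 h00 _ ht)
    have hcst1 : IntegrableOn (fun s => P (σ t) * R (w s)) (Ioc 0 1) :=
      integrable_mul continuousOn_const hRw
    have hcst2 : IntegrableOn (fun s => P (σ t) * R (u s)) (Ioc 0 1) :=
      integrable_mul continuousOn_const hRu
    have e3 : ∫ s in σ t..σ t', P s * R (w s) =
        (∫ s in σ t..σ t', (P s - P (σ t)) * R (w s)) + ∫ s in σ t..σ t', P (σ t) * R (w s) := by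
      rw [← intervalIntegral.integral_add]
      · apply intervalIntegral.integral_congr
        intro s _
        simp only [sub_mul, sub_add_cancel]
      · have := (hsub i1 _ hs1 _ hs2).sub (hsub hcst1 _ hs1 _ hs2)
        refine this.congr ?_
        intro s _
        exact (sub_mul _ _ _).symm
      · exact hsub hcst1 _ hs1 _ hs2
    have e4 : ∫ s in t..t', P (σ s) * R (u s) =
        (∫ s in t..t', (P (σ s) - P (σ t)) * R (u s)) + ∫ s in t..t', P (σ t) * R (u s) := by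
      rw [← intervalIntegral.integral_add]
      · apply intervalIntegral.integral_congr
        intro s _
        simp only [sub_mul, sub_add_cancel]
      · have := (hsub i2 _ ht _ ht').sub (hsub hcst2 _ ht _ ht')
        refine this.congr ?_
        intro s _
        exact (sub_mul _ _ _).symm
      · exact hsub hcst2 _ ht _ ht'
    have hwi : IntervalIntegrable w volume (σ t) (σ t') := by
      have h1 : ∀ a ∈ Icc (0 : ℝ) 1, IntervalIntegrable w volume 0 a := by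
        intro a ha
        rw [intervalIntegrable_iff_integrableOn_Ioc_of_le ha.1]
        exact hw.mono_set (Ioc_subset_Ioc_right ha.2)
      exact (h1 _ hs1).symm.trans (h1 _ hs2)
    have hui : IntervalIntegrable u volume t t' := by
      have h1 : ∀ a ∈ Icc (0 : ℝ) 1, IntervalIntegrable u volume 0 a := by
        intro a ha
        rw [intervalIntegrable_iff_integrableOn_Ioc_of_le ha.1]
        exact hu.mono_set (Ioc_subset_Ioc_right ha.2)
      exact (h1 _ ht).symm.trans (h1 _ ht')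
    have e5 : ∫ s in σ t..σ t', P (σ t) * R (w s) = ∫ s in t..t', P (σ t) * R (u s) := by
      have c1 := (((ContinuousLinearMap.mul ℝ A) (P (σ t))).comp R).intervalIntegral_comp_comm hwi
      have c2 := (((ContinuousLinearMap.mul ℝ A) (P (σ t))).comp R).intervalIntegral_comp_comm hui
      rw [huw t ht t' ht'] at c1
      exact c1.trans c2.symm
    have e6 : E t' - E t = (∫ s in σ t..σ t', (P s - P (σ t)) * R (w s)) -
        ∫ s in t..t', (P (σ s) - P (σ t)) * R (u s) := by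
      have : E t' - E t = ((∫ s in (0 : ℝ)..σ t', P s * R (w s)) -
          ∫ s in (0 : ℝ)..σ t, P s * R (w s)) - ((∫ s in (0 : ℝ)..t', P (σ s) * R (u s)) -
          ∫ s in (0 : ℝ)..t, P (σ s) * R (u s)) := by
        simp only [hE]
        abel
      rw [this, e1, e2, e3, e4, e5]
      abel
    have b1 : ‖∫ s in σ t..σ t', (P s - P (σ t)) * R (w s)‖ ≤
        M * (σ t' - σ t) * ‖R‖ * L * |σ t' - σ t| := by
      apply intervalIntegral.norm_integral_le_of_norm_le_const_ae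
      filter_upwards [hwL] with s hs hs'
      rw [uIoc_of_le hd.1] at hs'
      have hsI : s ∈ Icc (0 : ℝ) 1 := ⟨hs1.1.trans hs'.1.le, hs'.2.trans hs2.2⟩
      have a1 := hP (σ t) hs1 s hsI hs'.1.le
      have a2 : M * (s - σ t) ≤ M * (σ t' - σ t) :=
        mul_le_mul_of_nonneg_left (by linarith [hs'.2]) hM
      have a3 : ‖R (w s)‖ ≤ ‖R‖ * L := (R.le_opNorm _).trans
        (mul_le_mul_of_nonneg_left (hs ⟨lt_of_le_of_lt hs1.1 hs'.1, hsI.2⟩) (norm_nonneg _))
      calc ‖(P s - P (σ t)) * R (w s)‖ ≤ ‖P s - P (σ t)‖ * ‖R (w s)‖ := norm_mul_le _ _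
        _ ≤ (M * (σ t' - σ t)) * (‖R‖ * L) :=
          mul_le_mul (a1.trans a2) a3 (norm_nonneg _) (mul_nonneg hM (sub_nonneg.2 hd.1))
        _ = M * (σ t' - σ t) * ‖R‖ * L := by ring
    have b2 : ‖∫ s in t..t', (P (σ s) - P (σ t)) * R (u s)‖ ≤
        M * (σ t' - σ t) * ‖R‖ * (L * (σ t' - σ t)) := by
      rw [← hd.2, ← intervalIntegral.integral_const_mul]
      apply intervalIntegral.norm_integral_le_of_norm_le htt
      · filter_upwards with s hs
        have hsI : s ∈ Icc (0 : ℝ) 1 := ⟨ht.1.trans hs.1.le, hs.2.trans ht'.2⟩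
        have a0 := hσ t ht s hsI hs.1.le
        have a0' := hσ s hsI t' ht' hs.2
        have a1 := hP (σ t) hs1 (σ s) (hσm s hsI) a0.1
        have a2 : M * (σ s - σ t) ≤ M * (σ t' - σ t) :=
          mul_le_mul_of_nonneg_left (by linarith [a0'.1]) hM
        calc ‖(P (σ s) - P (σ t)) * R (u s)‖ ≤ ‖P (σ s) - P (σ t)‖ * ‖R (u s)‖ :=
              norm_mul_le _ _
          _ ≤ (M * (σ t' - σ t)) * (‖R‖ * ‖u s‖) :=
            mul_le_mul (a1.trans a2) (R.le_opNorm _) (norm_nonneg _)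
              (mul_nonneg hM (sub_nonneg.2 hd.1))
          _ = M * (σ t' - σ t) * ‖R‖ * ‖u s‖ := by ring
      · exact hui.norm.const_mul _
    rw [e6]
    refine (norm_sub_le _ _).trans ?_
    rw [abs_of_nonneg (sub_nonneg.2 hd.1)] at b1
    nlinarith [b1, b2]
  have hC : ∀ s s', ‖E (τ s') - E (τ s)‖ ≤ 2 * M * ‖R‖ * L * (s' - s) ^ 2 := by
    intro s s'
    have hk : 0 ≤ 2 * M * ‖R‖ * L := by positivity
    have hq : ‖E (τ s') - E (τ s)‖ ≤ 2 * M * ‖R‖ * L * (clp s' - clp s) ^ 2 := by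
      rcases le_total (τ s) (τ s') with h | h
      · have := hquad _ (hτ s) _ (hτ s') h
        rwa [hστ, hστ] at this
      · have := hquad _ (hτ s') _ (hτ s) h
        rw [hστ, hστ, norm_sub_rev] at this
        rwa [show (clp s' - clp s) ^ 2 = (clp s - clp s') ^ 2 by ring]
    refine hq.trans (mul_le_mul_of_nonneg_left ?_ hk)
    exact sq_le_sq.2 (clp_lip s s')
  have heq : ∀ t ∈ Icc (0 : ℝ) 1, E t = E (τ (σ t)) := by
    intro t ht
    have hst : σ (τ (σ t)) = σ t := by rw [hστ, clp_of_mem (hσm t ht)]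
    rcases le_total t (τ (σ t)) with h | h
    · have h2 := hquad _ ht _ (hτ (σ t)) h
      rw [hst, sub_self, zero_pow two_ne_zero, mul_zero] at h2
      exact (sub_eq_zero.1 (norm_le_zero_iff.1 h2)).symm
    · have h2 := hquad _ (hτ (σ t)) _ ht h
      rw [hst, sub_self, zero_pow two_ne_zero, mul_zero] at h2
      exact sub_eq_zero.1 (norm_le_zero_iff.1 h2)
  have hE0 : E 0 = 0 := by
    simp only [hE, h0, intervalIntegral.integral_same, sub_self]
  have hfin : E t = 0 := by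
    have h2 := const_of_sq hC (σ t) (σ 0)
    rw [heq t ht, h2, ← heq 0 h00, hE0]
  exact sub_eq_zero.1 hfin

/-- The iterated integrals. -/
theorem iter_repa (R : EE r →L[ℝ] A) {u w : ℝ → EE r} (hu : IntegrableOn u (Ioc 0 1))
    (hw : IntegrableOn w (Ioc 0 1)) {σ : ℝ → ℝ} {L : ℝ}
    (hL : 0 ≤ L) (hc : ContinuousOn σ (Icc 0 1)) (h0 : σ 0 = 0) (h1 : σ 1 = 1)
    (hσ : ∀ t ∈ Icc (0 : ℝ) 1, ∀ t' ∈ Icc (0 : ℝ) 1, t ≤ t' → σ t ≤ σ t' ∧
        ∫ s in t..t', ‖u s‖ = L * (σ t' - σ t))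
    (hwL : ∀ᵐ s ∂volume, s ∈ Ioc (0 : ℝ) 1 → ‖w s‖ ≤ L)
    (huw : ∀ t ∈ Icc (0 : ℝ) 1, ∀ t' ∈ Icc (0 : ℝ) 1,
        ∫ s in σ t..σ t', w s = ∫ s in t..t', u s) (k : ℕ) :
    ∀ t ∈ Icc (0 : ℝ) 1, iter R w k (σ t) = iter R u k t := by
  have h00 : (0 : ℝ) ∈ Icc (0 : ℝ) 1 := ⟨le_refl _, zero_le_one⟩
  -- iterated integrals are Lipschitz
  have hlip : ∀ k, ∃ M : ℝ, 0 ≤ M ∧ ∀ s ∈ Icc (0 : ℝ) 1, ∀ s' ∈ Icc (0 : ℝ) 1, s ≤ s' →
      ‖iter R w k s' - iter R w k s‖ ≤ M * (s' - s) := by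
    intro k
    cases k with
    | zero =>
      refine ⟨0, le_rfl, ?_⟩
      intro s _ s' _ _
      change ‖(1 : A) - 1‖ ≤ _
      rw [sub_self, norm_zero, zero_mul]
    | succ k =>
      obtain ⟨B, hB⟩ := isCompact_Icc.exists_bound_of_continuousOn (iter_cont R hw k)
      have hB0 : 0 ≤ B := (norm_nonneg _).trans (hB 0 h00)
      refine ⟨B * (‖R‖ * L), by positivity, ?_⟩
      intro s hs s' hs' hss
      have i1 := iter_integrable R hw k
      have e1 : iter R w (k + 1) s' - iter R w (k + 1) s =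
          ∫ p in s..s', iter R w k p * R (w p) :=
        intervalIntegral.integral_interval_sub_left (interval_of_Ioc i1 hs')
          (interval_of_Ioc i1 hs)
      rw [e1]
      have b1 : ‖∫ p in s..s', iter R w k p * R (w p)‖ ≤ B * (‖R‖ * L) * |s' - s| := by
        apply intervalIntegral.norm_integral_le_of_norm_le_const_ae
        filter_upwards [hwL] with p hp hp'
        rw [uIoc_of_le hss] at hp'
        have hpI : p ∈ Ioc (0 : ℝ) 1 := ⟨lt_of_le_of_lt hs.1 hp'.1, hp'.2.trans hs'.2⟩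
        calc ‖iter R w k p * R (w p)‖ ≤ ‖iter R w k p‖ * ‖R (w p)‖ := norm_mul_le _ _
          _ ≤ B * (‖R‖ * L) := mul_le_mul (hB p ⟨hpI.1.le, hpI.2⟩)
            ((R.le_opNorm _).trans (mul_le_mul_of_nonneg_left (hp hpI) (norm_nonneg _)))
            (norm_nonneg _) hB0
      rwa [abs_of_nonneg (sub_nonneg.2 hss)] at b1
  induction k with
  | zero =>
    intro t _
    rfl
  | succ k ih =>
    intro t ht
    obtain ⟨M, hM, hMl⟩ := hlip k
    have h2 := change_var R hu hw hL hM hc h0 h1 hσ hwL huw (iter R w k) (iter_cont R hw k) hMl ht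
    change ∫ s in (0 : ℝ)..σ t, iter R w k s * R (w s) = ∫ s in (0 : ℝ)..t, iter R u k s * R (u s)
    rw [h2]
    apply intervalIntegral.integral_congr
    intro s hs
    rw [uIcc_of_le ht.1] at hs
    change iter R w k (σ s) * R (u s) = iter R u k s * R (u s)
    rw [ih s ⟨hs.1, hs.2.trans ht.2⟩]

end

theorem repa (g : Type) [NormedAddCommGroup g] [NormedSpace ℝ g] [FiniteDimensional ℝ g]
    (r : ℕ) : RepaStatement g r := by
  intro C u hu
  obtain ⟨σ, hc, h0, h1, hσ⟩ := exists_sigma hu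
  have hL : 0 ≤ ∫ s in (0 : ℝ)..1, ‖u s‖ :=
    intervalIntegral.integral_nonneg zero_le_one fun _ _ => norm_nonneg _
  obtain ⟨w, hwm, hwL, huw⟩ := exists_control hu hL hc h0 h1 hσ
  have hmem : MemLp w 2 (volume.restrict (Ioc (0 : ℝ) 1)) :=
    MemLp.of_bound hwm.aestronglyMeasurable _ (Eventually.of_forall hwL)
  have hae := hmem.coeFn_toLp
  have hae' : ∀ᵐ s ∂volume, s ∈ Ioc (0 : ℝ) 1 → (hmem.toLp w : ℝ → EE r) s = w s :=
    (ae_restrict_iff' measurableSet_Ioc).1 hae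
  have hbd : ∀ᵐ s ∂(volume.restrict (Ioc (0 : ℝ) 1)), ‖(hmem.toLp w : ℝ → EE r) s‖ ≤
      ∫ s in (0 : ℝ)..1, ‖u s‖ := by
    filter_upwards [hae] with s hs
    rw [hs]
    exact hwL s
  refine ⟨hmem.toLp w, hbd, ?_⟩
  have h00 : (0 : ℝ) ∈ Icc (0 : ℝ) 1 := ⟨le_refl _, zero_le_one⟩
  have h11 : (1 : ℝ) ∈ Icc (0 : ℝ) 1 := ⟨zero_le_one, le_refl _⟩
  have hσm : ∀ t ∈ Icc (0 : ℝ) 1, σ t ∈ Icc (0 : ℝ) 1 := by
    intro t ht
    have a1 := (hσ 0 h00 t ht ht.1).1
    have a2 := (hσ t ht 1 h11 ht.2).1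
    rw [h0] at a1
    rw [h1] at a2
    exact ⟨a1, a2⟩
  have hwi : IntegrableOn (hmem.toLp w : ℝ → EE r) (Ioc 0 1) :=
    (Lp.memLp (hmem.toLp w)).integrable one_le_two
  have huw' : ∀ t ∈ Icc (0 : ℝ) 1, ∀ t' ∈ Icc (0 : ℝ) 1,
      ∫ s in σ t..σ t', (hmem.toLp w : ℝ → EE r) s = ∫ s in t..t', u s := by
    intro t ht t' ht'
    rw [← huw t ht t' ht']
    apply intervalIntegral.integral_congr_ae
    filter_upwards [hae'] with s hs hs'
    apply hs
    have a1 := hσm t ht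
    have a2 := hσm t' ht'
    rw [mem_uIoc] at hs'
    rcases hs' with h | h
    · exact ⟨lt_of_le_of_lt a1.1 h.1, h.2.trans a2.2⟩
    · exact ⟨lt_of_le_of_lt a2.1 h.1, h.2.trans a1.2⟩
  have key := fun k => iter_repa C.R hu hwi hL hc h0 h1 hσ
    ((ae_restrict_iff' measurableSet_Ioc).1 hbd) huw' k 1 h11
  change ∑ k ∈ Finset.range (C.s + 1), iter C.R (hmem.toLp w : ℝ → EE r) k 1 =
    ∑ k ∈ Finset.range (C.s + 1), iter C.R u k 1
  apply Finset.sum_congr rfl
  intro k _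
  have := key k
  rwa [h1] at this

end Pool.Agent.CutLoci.H16
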